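import Pool.Agent.PCO.StmtsA

/-!
# PCO squad, row BXU: the subspace determines the box
-/

set_option autoImplicit false

open Matrix Filter Topology

namespace Pool.Agent.PCO.H37

open Pool.Agent.PFS Pool.Agent.PFJ Pool.Agent.PCO

theorem bxu (hBXM : BxmStmt) (hBXW : BxwStmt) (hBF1 : Bf1Stmt) (hBF2 : Bf2Stmt)
    (hWBF : WbfStmt) : BxuStmt := by
  intro n C Γ d h U U' v v' hB hB' hd hd' hW
  obtain ⟨_, hvcl, hv0, hvU, hstr, _, _, _, _⟩ := hBF1 n C Γ h.toCC h.maxc U v hB
  obtain ⟨_, hvcl', hv0', _, _, _, _, _, _⟩ := hBF1 n C Γ h.toCC h.maxc U' v' hB'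
  obtain ⟨_, _, hgen, hex, _⟩ := hBF2 n C Γ h.toCC h.maxc U v hB
  obtain ⟨_, _, _, hext, _, _, _⟩ := hBXM n C Γ d h U v hB hd
  obtain ⟨_, _, _, _, hextv', _, _⟩ := hBXM n C Γ d h U' v' hB' hd'
  obtain ⟨hmem, _⟩ := hWBF n
  have hv'W : v' ∈ Wb U v := by
    rw [hW, hmem]
    exact ⟨0, U'.zero_mem, 1, by rw [zero_add, one_smul]⟩
  -- boundary elements of `U` which are not multiples of `v'` are in `U'`
  have key : ∀ e, Bd C U e → (∀ c : ℝ, 0 < c → e ≠ c • v') → e ∈ U' := by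
    intro e he hne
    have heW : e ∈ Wb U' v' := by
      rw [← hW, hmem]
      exact ⟨e, he.1, 0, by rw [zero_smul, add_zero]⟩
    rcases hBXW n C Γ h.toCC h.maxc U' v' hB' e heW he.2.1 (hext e he) he.2.2.1 with h1 | h1
    · exact h1
    · obtain ⟨c, hc, hec⟩ := h1
      exact absurd hec (hne c hc)
  rcases hBXW n C Γ h.toCC h.maxc U v hB v' hv'W hvcl' hextv' hv0' with h1 | h1
  · exfalso
    obtain ⟨e1, he1, hne1⟩ := hex v' 0
    obtain ⟨e2, he2, hne2⟩ := hex v' e1
    have m1 : e1 ∈ U' := by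
      refine key e1 he1 (fun c _ hc => hne1 c 0 ?_)
      rw [hc, zero_smul, add_zero]
    have m2 : e2 ∈ U' := by
      refine key e2 he2 (fun c _ hc => hne2 c 0 ?_)
      rw [hc, zero_smul, add_zero]
    have hind : Ind2 e1 e2 := by
      intro a b hab
      have hb : b = 0 := by
        by_contra hb
        apply hne2 0 (-(b⁻¹ * a))
        have h2 : b • e2 = -(a • e1) := eq_neg_of_add_eq_zero_right hab
        rw [zero_smul, zero_add, neg_smul, mul_smul, ← smul_neg, ← h2, smul_smul,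
          inv_mul_cancel₀ hb, one_smul]
      refine ⟨?_, hb⟩
      rw [hb, zero_smul, add_zero] at hab
      exact (smul_eq_zero.1 hab).resolve_right he1.2.2.1
    obtain ⟨_, _, hu⟩ := hstr e1 he1.1 e2 he2.1 he1.2.1 he2.2.1 hind
    obtain ⟨M, _, hM⟩ := hu v' h1
    have h3 := hB'.comp (M • (e1 + e2)) (U'.smul_mem _ (U'.add_mem m1 m2)) (-1) (by
      rw [neg_one_smul, ← sub_eq_add_neg]
      exact hM)
    linarith [h3.2]
  · obtain ⟨c, hc, hvc⟩ := h1
    refine ⟨?_, c, hc, hvc⟩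
    have hle : U ≤ U' := by
      refine hgen U' (fun e he => key e he (fun c' hc' hec => ?_))
      apply hvU
      have h2 : v = (c' * c)⁻¹ • e := by
        rw [hec, hvc, smul_smul, smul_smul, mul_assoc, inv_mul_cancel₀ (mul_pos hc' hc).ne',
          one_smul]
      rw [h2]
      exact U.smul_mem _ he.1
    exact (Submodule.eq_of_le_of_finrank_eq hle (by rw [hd, hd'])).symm

end Pool.Agent.PCO.H37
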