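import Pool.Agent.PCO.StmtsA

/-!
# PCO squad, row WBL: convergence of the subspaces of boxes
-/

set_option autoImplicit false

open Matrix Filter Topology

namespace Pool.Agent.PCO.H37

open Pool.Agent.PFS Pool.Agent.PFJ Pool.Agent.PCO

theorem wbl (hWBF : WbfStmt) (hBF1 : Bf1Stmt) : WblStmt := by
  intro n C Γ h hK U v U' v' hB hB' hL hv
  obtain ⟨hmem, _⟩ := hWBF n
  refine ⟨?_, ?_⟩
  · intro x hx
    obtain ⟨y, hy, τ, rfl⟩ := (hmem U' v' x).1 hx
    obtain ⟨ym, h1, h2⟩ := hL.1 y hy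
    refine ⟨fun m => ym m + τ • v m, fun m => (hmem _ _ _).2 ⟨ym m, h1 m, τ, rfl⟩, ?_⟩
    exact h2.add (hv.const_smul τ)
  · intro φ x x' hφ hx hlim
    choose y hy τ hyτ using fun m => (hmem (U (φ m)) (v (φ m)) (x m)).1 (hx m)
    obtain ⟨_, _, _, _, _, hfv, ⟨f, hf⟩, _, _⟩ := hBF1 n C Γ h hK U' v' hB'
    obtain ⟨fm, hfm, hfl⟩ := hL.1 f hf.1
    have hC : f + v' ∈ C := by
      have := (hfv f hf.1 1).2 ⟨hf, one_pos⟩
      rwa [one_smul] at this
    obtain ⟨B, hB0, hBn⟩ := h.toPCone.normal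
    -- absorb
    obtain ⟨M, hM, hM1, hM2⟩ : ∃ M : ℝ, 0 < M ∧ M • (f + v') - x' ∈ C ∧ M • (f + v') + x' ∈ C := by
      obtain ⟨M1, hM1, h1⟩ := h.toPCone.absorb hC x'
      obtain ⟨M2, hM2, h2⟩ := h.toPCone.absorb hC (-x')
      refine ⟨M1 + M2, by positivity, ?_, ?_⟩
      · have h3 := h.toPCone.add_cl h1 (h.toPCone.cl_smul (subset_closure hC) hM2.le)
        have e : (M1 + M2) • (f + v') - x' = M1 • (f + v') - x' + M2 • (f + v') := by module
        rw [e]
        exact h3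
      · have h3 := h.toPCone.add_cl h2 (h.toPCone.cl_smul (subset_closure hC) hM1.le)
        have e : (M1 + M2) • (f + v') + x' = M2 • (f + v') - -x' + M1 • (f + v') := by module
        rw [e]
        exact h3
    have hfφ : Tendsto (fun m => fm (φ m)) atTop (𝓝 f) := hfl.comp hφ.tendsto_atTop
    have hvφ : Tendsto (fun m => v (φ m)) atTop (𝓝 v') := hv.comp hφ.tendsto_atTop
    have e1 : ∀ᶠ m in atTop, M • (fm (φ m) + v (φ m)) - x m ∈ C :=
      (((hfφ.add hvφ).const_smul M).sub hlim).eventually (h.isOpen.mem_nhds hM1)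
    have e2 : ∀ᶠ m in atTop, M • (fm (φ m) + v (φ m)) + x m ∈ C :=
      (((hfφ.add hvφ).const_smul M).add hlim).eventually (h.isOpen.mem_nhds hM2)
    have e3 : ∀ᶠ m in atTop, ‖fm (φ m)‖ < ‖f‖ + 1 :=
      hfφ.norm.eventually (gt_mem_nhds (by linarith))
    -- bounds
    have e4 : ∀ᶠ m in atTop, |τ m| ≤ M ∧ ‖y m‖ ≤ B * (2 * M * (‖f‖ + 1)) + M * (‖f‖ + 1) := by
      filter_upwards [e1, e2, e3] with m h1 h2 h3
      rw [hyτ m] at h1 h2
      have h4 := (hB (φ m)).comp (M • fm (φ m) - y m)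
        ((U (φ m)).sub_mem ((U (φ m)).smul_mem _ (hfm _)) (hy m)) (M - τ m) (by
          have e : M • fm (φ m) - y m + (M - τ m) • v (φ m) =
              M • (fm (φ m) + v (φ m)) - (y m + τ m • v (φ m)) := by module
          rw [e]
          exact subset_closure h1)
      have h5 := (hB (φ m)).comp (M • fm (φ m) + y m)
        ((U (φ m)).add_mem ((U (φ m)).smul_mem _ (hfm _)) (hy m)) (M + τ m) (by
          have e : M • fm (φ m) + y m + (M + τ m) • v (φ m) =
              M • (fm (φ m) + v (φ m)) + (y m + τ m • v (φ m)) := by module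
          rw [e]
          exact subset_closure h2)
      refine ⟨abs_le.2 ⟨by linarith [h5.2], by linarith [h4.2]⟩, ?_⟩
      have h6 := hBn (M • fm (φ m) + y m) ((2 * M) • fm (φ m)) h5.1 (by
        have e : (2 * M) • fm (φ m) - (M • fm (φ m) + y m) = M • fm (φ m) - y m := by module
        rw [e]
        exact h4.1)
      have h7 : ‖y m‖ ≤ ‖M • fm (φ m) + y m‖ + ‖M • fm (φ m)‖ := by
        have := norm_sub_le (M • fm (φ m) + y m) (M • fm (φ m))
        rwa [add_sub_cancel_left] at this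
      have h8 : ‖(2 * M) • fm (φ m)‖ ≤ 2 * M * (‖f‖ + 1) := by
        rw [norm_smul, Real.norm_of_nonneg (by positivity)]
        exact mul_le_mul_of_nonneg_left h3.le (by positivity)
      have h9 : ‖M • fm (φ m)‖ ≤ M * (‖f‖ + 1) := by
        rw [norm_smul, Real.norm_of_nonneg hM.le]
        exact mul_le_mul_of_nonneg_left h3.le hM.le
      have h10 : B * ‖(2 * M) • fm (φ m)‖ ≤ B * (2 * M * (‖f‖ + 1)) :=
        mul_le_mul_of_nonneg_left h8 hB0.le
      linarith
    obtain ⟨N, hN⟩ := eventually_atTop.1 e4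
    set R : ℝ := B * (2 * M * (‖f‖ + 1)) + M * (‖f‖ + 1) with hR
    -- subsequence
    have hcomp : IsCompact ((Metric.closedBall (0 : V n) R) ×ˢ (Set.Icc (-M) M)) :=
      (isCompact_closedBall _ _).prod isCompact_Icc
    obtain ⟨⟨y0, τ0⟩, _, ψ, hψ, hlim2⟩ := hcomp.tendsto_subseq (x := fun m => (y (N + m), τ (N + m)))
      (fun m => ⟨by
        rw [Metric.mem_closedBall, dist_zero_right]
        exact (hN _ (Nat.le_add_right _ _)).2, abs_le.1 (hN _ (Nat.le_add_right _ _)).1⟩)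
    have hy0 : Tendsto (fun m => y (N + ψ m)) atTop (𝓝 y0) :=
      ((continuous_fst.tendsto _).comp hlim2)
    have hτ0 : Tendsto (fun m => τ (N + ψ m)) atTop (𝓝 τ0) :=
      ((continuous_snd.tendsto _).comp hlim2)
    have hmono : StrictMono (fun m => N + ψ m) := fun a b hab => by
      show N + ψ a < N + ψ b
      exact Nat.add_lt_add_left (hψ hab) N
    have hyU : y0 ∈ U' := hL.2 (fun m => φ (N + ψ m)) (fun m => y (N + ψ m)) y0
      (hφ.comp hmono) (fun m => hy _) hy0
    have hxlim : Tendsto (fun m => x (N + ψ m)) atTop (𝓝 (y0 + τ0 • v')) := by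
      have h1 : (fun m => x (N + ψ m)) =
          fun m => y (N + ψ m) + τ (N + ψ m) • v (φ (N + ψ m)) := by
        funext m
        exact hyτ _
      rw [h1]
      exact hy0.add (hτ0.smul (hvφ.comp hmono.tendsto_atTop))
    have heq : x' = y0 + τ0 • v' :=
      tendsto_nhds_unique (hlim.comp hmono.tendsto_atTop) hxlim
    exact (hmem _ _ _).2 ⟨y0, hyU, τ0, heq⟩

end Pool.Agent.PCO.H37
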